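import Pool.Agent.L0h44.LC.Stm

/-! # Project LC, part SUR: the coboundary from the inner edges to the inner triangles is onto -/

set_option autoImplicit false

namespace Pool.Agent.L0h13.LC

open Finset Pool.Agent.H933R3 Pool.Agent.L0h44.LC

variable {V : Type} [DecidableEq V]

theorem exists_facet {K : Finset (Finset V)} {σ : Finset V} (h : σ ∈ K) :
    ∃ F, IsFacet K F ∧ σ ⊆ F := by
  obtain ⟨m, hm, hmax⟩ := K.exists_le_maximal h
  refine ⟨m, ⟨hmax.prop, fun G hG hle => ?_⟩, hm⟩
  exact (Subset.antisymm hle (hmax.2 hG hle)).symm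

/-- extension by zero -/
def ex (E : Finset (Finset V)) (e : Finset V) : ({x // x ∈ E} → ZMod 2) →ₗ[ZMod 2] ZMod 2 :=
  if h : e ∈ E then LinearMap.proj ⟨e, h⟩ else 0

theorem ex_mem {E : Finset (Finset V)} {e : Finset V} (h : e ∈ E) (y : {x // x ∈ E} → ZMod 2) :
    ex E e y = y ⟨e, h⟩ := by
  unfold ex
  rw [dif_pos h]
  rfl

theorem ex_nmem {E : Finset (Finset V)} {e : Finset V} (h : e ∉ E) (y : {x // x ∈ E} → ZMod 2) :
    ex E e y = 0 := by
  unfold ex
  rw [dif_neg h]
  rfl

/-- the coboundary from edges to triangles -/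
def dl (E T : Finset (Finset V)) :
    ({x // x ∈ E} → ZMod 2) →ₗ[ZMod 2] ({x // x ∈ T} → ZMod 2) :=
  LinearMap.pi fun A => ∑ e ∈ A.1.powersetCard 2, ex E e

/-- the coboundary from vertices to edges -/
def d0 (N E : Finset (Finset V)) :
    ({x // x ∈ N} → ZMod 2) →ₗ[ZMod 2] ({x // x ∈ E} → ZMod 2) :=
  LinearMap.pi fun e => ∑ v ∈ e.1, ex N {v}

theorem dl_apply (E T : Finset (Finset V)) (y : {x // x ∈ E} → ZMod 2) (A : {x // x ∈ T}) :
    dl E T y A = ∑ e ∈ A.1.powersetCard 2, ex E e y := by
  unfold dl
  rw [LinearMap.pi_apply, LinearMap.sum_apply]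

theorem d0_apply (N E : Finset (Finset V)) (g : {x // x ∈ N} → ZMod 2) (e : {x // x ∈ E}) :
    d0 N E g e = ∑ v ∈ e.1, ex N {v} g := by
  unfold d0
  rw [LinearMap.pi_apply, LinearMap.sum_apply]

theorem two_z (x : ZMod 2) : x + x = 0 := by revert x; decide

theorem neg_z (x : ZMod 2) : -x = x := by revert x; decide

theorem pc3 {u v w : V} (h1 : u ≠ v) (h2 : u ≠ w) (h3 : v ≠ w) (f : Finset V → ZMod 2) :
    ∑ e ∈ ({u, v, w} : Finset V).powersetCard 2, f e = f {u, v} + f {v, w} + f {u, w} := by
  have h : ({u, v, w} : Finset V).powersetCard 2 = {{u, v}, {v, w}, {u, w}} := by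
    ext e
    rw [mem_powersetCard]
    constructor
    · rintro ⟨hs, hc⟩
      obtain ⟨a, b, hab, rfl⟩ := card_eq_two.1 hc
      have ha := hs (mem_insert_self a _)
      have hb := hs (mem_insert_of_mem (mem_singleton_self b))
      simp only [mem_insert, mem_singleton] at ha hb ⊢
      rcases ha with rfl | rfl | rfl <;> rcases hb with rfl | rfl | rfl <;>
        first
          | exact absurd rfl hab
          | simp [Finset.pair_comm]
    · intro he
      simp only [mem_insert, mem_singleton] at he
      rcases he with rfl | rfl | rfl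
      · exact ⟨by intro x; simp only [mem_insert, mem_singleton]; tauto, card_pair h1⟩
      · exact ⟨by intro x; simp only [mem_insert, mem_singleton]; tauto, card_pair h3⟩
      · exact ⟨by intro x; simp only [mem_insert, mem_singleton]; tauto, card_pair h2⟩
  rw [h]
  have n1 : ({u, v} : Finset V) ∉ ({{v, w}, {u, w}} : Finset (Finset V)) := by
    intro h
    simp only [mem_insert, mem_singleton] at h
    rcases h with h | h
    · have := h ▸ (mem_insert_self u {v})
      simp only [mem_insert, mem_singleton] at this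
      tauto
    · have : v ∈ ({u, w} : Finset V) := h ▸ (mem_insert_of_mem (mem_singleton_self v))
      simp only [mem_insert, mem_singleton] at this
      rcases this with h | h
      · exact h1 h.symm
      · exact h3 h
  have n2 : ({v, w} : Finset V) ∉ ({{u, w}} : Finset (Finset V)) := by
    intro h
    rw [mem_singleton] at h
    have : v ∈ ({u, w} : Finset V) := h ▸ (mem_insert_self v {w})
    simp only [mem_insert, mem_singleton] at this
    rcases this with h | h
    · exact h1 h.symm
    · exact h3 h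
  rw [sum_insert n1, sum_insert n2, sum_singleton]
  ring

theorem bd_sub {K : Finset (Finset V)} {σ : Finset V} (h : σ ∈ bd K) : σ ∈ K := (mem_filter.1 h).1

theorem bd_down {K : Finset (Finset V)} (hK : IsCx K) {σ τ : Finset V} (h : σ ∈ bd K)
    (hs : τ ⊆ σ) : τ ∈ bd K := by
  obtain ⟨h1, R, h2, h3, h4, h5⟩ := mem_filter.1 h
  exact mem_filter.2 ⟨hK.2 σ h1 τ hs, R, h2, h3, hs.trans h4, h5⟩

theorem ker_le (hT : S_TRV) (K Rs : Finset (Finset V)) (hK : IsCx K) (hLC : IsLC 4 K)
    (hne : (bd K).Nonempty) (hE : EConn (bd K)) (hG : GoodRs K Rs) :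
    LinearMap.ker (dl ((K \ bd K).filter fun σ => σ.card = 2)
      ((K \ bd K).filter (fun σ => σ.card = 3) \ Rs)) ≤
      LinearMap.range (d0 ((K \ bd K).filter fun σ => σ.card = 1)
        ((K \ bd K).filter fun σ => σ.card = 2)) := by
  set E := (K \ bd K).filter fun σ => σ.card = 2 with hEdef
  set T := (K \ bd K).filter (fun σ => σ.card = 3) \ Rs with hTdef
  set N := (K \ bd K).filter fun σ => σ.card = 1 with hNdef
  intro y hy
  rw [LinearMap.mem_ker] at hy
  let ρ : V → V → Multiplicative (ZMod 2) := fun u v => Multiplicative.ofAdd (ex E {u, v} y)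
  have hρ : Flat K ρ := by
    refine hG.2.2 (Multiplicative (ZMod 2)) ρ ?_ ?_ ?_
    · intro u
      show Multiplicative.ofAdd (ex E {u, u} y) = 1
      rw [ex_nmem, ofAdd_zero]
      intro h
      have := (mem_filter.1 h).2
      rw [pair_eq_singleton, card_singleton] at this
      omega
    · intro u v
      show Multiplicative.ofAdd (ex E {v, u} y) = (Multiplicative.ofAdd (ex E {u, v} y))⁻¹
      rw [← ofAdd_neg, neg_z, pair_comm]
    · intro u v w hmem hcard hRs
      show Multiplicative.ofAdd (ex E {u, v} y) * Multiplicative.ofAdd (ex E {v, w} y) =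
        Multiplicative.ofAdd (ex E {u, w} y)
      rw [← ofAdd_add]
      congr 1
      by_cases hb : ({u, v, w} : Finset V) ∈ bd K
      · have h0 : ∀ a b : V, ({a, b} : Finset V) ⊆ {u, v, w} → ex E {a, b} y = 0 := by
          intro a b hab
          apply ex_nmem
          intro h
          have h1 := (mem_filter.1 h).1
          rw [mem_sdiff] at h1
          exact h1.2 (bd_down hK hb hab)
        rw [h0 u v (by intro x; simp only [mem_insert, mem_singleton]; tauto),
          h0 v w (by intro x; simp only [mem_insert, mem_singleton]; tauto),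
          h0 u w (by intro x; simp only [mem_insert, mem_singleton]; tauto), add_zero]
      · have hA : ({u, v, w} : Finset V) ∈ T := by
          rw [hTdef, mem_sdiff, mem_filter, mem_sdiff]
          exact ⟨⟨⟨hmem, hb⟩, hcard⟩, hRs⟩
        have h1 := congrFun hy ⟨_, hA⟩
        rw [dl_apply] at h1
        have huv : u ≠ v := by
          rintro rfl
          have : ({u, u, w} : Finset V).card ≤ 2 := by
            rw [insert_idem]
            exact card_le_two
          omega
        have huw : u ≠ w := by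
          rintro rfl
          have : ({u, v, u} : Finset V).card ≤ 2 := by
            rw [pair_comm v u, insert_idem]
            exact card_le_two
          omega
        have hvw : v ≠ w := by
          rintro rfl
          have : ({u, v, v} : Finset V).card ≤ 2 := by
            rw [pair_eq_singleton]
            exact card_le_two
          omega
        rw [pc3 huv huw hvw (fun e => ex E e y)] at h1
        have h2 : ex E {u, v} y + ex E {v, w} y + ex E {u, w} y = 0 := h1
        calc ex E {u, v} y + ex E {v, w} y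
            = ex E {u, v} y + ex E {v, w} y + ex E {u, w} y + ex E {u, w} y := by
              rw [add_assoc _ (ex E {u, w} y), two_z, add_zero]
          _ = ex E {u, w} y := by rw [h2, zero_add]
  obtain ⟨g, hg⟩ := hT V K (Multiplicative (ZMod 2)) ρ hK hLC hρ
  let g' : V → ZMod 2 := fun v => Multiplicative.toAdd (g v)
  have hg' : ∀ u v : V, ({u, v} : Finset V) ∈ K → ex E {u, v} y = g' u + g' v := by
    intro u v h
    have h1 := congrArg Multiplicative.toAdd (hg u v h)
    have h2 : ex E {u, v} y = -g' u + g' v := h1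
    rw [h2, neg_z]
  -- a boundary vertex
  obtain ⟨v0, hv0⟩ : ∃ v0 : V, {v0} ∈ bd K := by
    obtain ⟨σ, hσ⟩ := hne
    obtain ⟨h1, R, h2, h3, h4, h5⟩ := mem_filter.1 hσ
    have hR : R ∈ bd K := mem_filter.2 ⟨h2, R, h2, h3, Subset.refl _, h5⟩
    have hRn : R.Nonempty := by
      rw [← card_pos]
      omega
    obtain ⟨v, hv⟩ := hRn
    exact ⟨v, bd_down hK hR (singleton_subset_iff.2 hv)⟩
  have hconst : ∀ v : V, {v} ∈ bd K → g' v = g' v0 := by
    intro v hv
    have h := hE v0 v hv0 hv
    induction h with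
    | refl => rfl
    | @tail a b hab hbc ih =>
      have h1 : ({a, b} : Finset V) ∈ bd K := hbc
      have h2 : ex E {a, b} y = 0 := by
        apply ex_nmem
        intro h
        have h1' := (mem_filter.1 h).1
        rw [mem_sdiff] at h1'
        exact h1'.2 h1
      have h3 := hg' a b (bd_sub h1)
      rw [h2] at h3
      have ha : {a} ∈ bd K := bd_down hK h1 (by intro x; simp only [mem_insert, mem_singleton]; tauto)
      have h4 := ih ha
      have h5 : g' a = g' b := by
        have : ∀ x z : ZMod 2, 0 = x + z → x = z := by decide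
        exact this _ _ h3
      rw [← h5, h4]
  refine ⟨fun v => ∑ u ∈ v.1, (g' u + g' v0), ?_⟩
  funext e
  rw [d0_apply]
  obtain ⟨e, he⟩ := e
  have he' := he
  rw [hEdef, mem_filter, mem_sdiff] at he'
  obtain ⟨⟨heK, heb⟩, hec⟩ := he'
  obtain ⟨u, v, huv, rfl⟩ := card_eq_two.1 hec
  have hN : ∀ w : V, {w} ∈ K → ex N {w} (fun v => ∑ u ∈ v.1, (g' u + g' v0)) = g' w + g' v0 := by
    intro w hw
    by_cases hwb : {w} ∈ bd K
    · rw [ex_nmem, hconst w hwb, two_z]
      intro h
      rw [hNdef, mem_filter, mem_sdiff] at h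
      exact h.1.2 hwb
    · have hwN : {w} ∈ N := by
        rw [hNdef, mem_filter, mem_sdiff]
        exact ⟨⟨hw, hwb⟩, card_singleton _⟩
      rw [ex_mem hwN]
      exact sum_singleton _ _
  have hu : {u} ∈ K := hK.2 _ heK _ (by intro x; simp only [mem_insert, mem_singleton]; tauto)
  have hv : {v} ∈ K := hK.2 _ heK _ (by intro x; simp only [mem_insert, mem_singleton]; tauto)
  show ∑ x ∈ ({u, v} : Finset V), ex N {x} _ = y ⟨{u, v}, he⟩
  rw [sum_pair huv, hN u hu, hN v hv, ← ex_mem he y, hg' u v heK]
  calc g' u + g' v0 + (g' v + g' v0) = g' u + g' v + (g' v0 + g' v0) := by ring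
    _ = g' u + g' v := by rw [two_z, add_zero]

theorem count (K Rs : Finset (Finset V)) (hK : IsCx K) (hLC : IsLC 4 K) (hne : (bd K).Nonempty)
    (hchi : euler K - euler (bd K) = 1) (hG : GoodRs K Rs) :
    ((K \ bd K).filter (fun σ => σ.card = 3) \ Rs).card +
      ((K \ bd K).filter fun σ => σ.card = 1).card =
      ((K \ bd K).filter fun σ => σ.card = 2).card := by
  have h0 : (∅ : Finset V) ∈ bd K := by
    obtain ⟨σ, hσ⟩ := hne
    exact bd_down hK hσ (empty_subset _)
  have hcard : ∀ σ ∈ K, σ.card ≤ 5 := by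
    intro σ hσ
    obtain ⟨F, hF, hs⟩ := exists_facet hσ
    have := hLC.1 F hF
    have := card_le_card hs
    omega
  have hsub : Rs ⊆ (K \ bd K).filter fun σ => σ.card = 3 := by
    intro A hA
    obtain ⟨h1, h2, h3⟩ := hG.1 A hA
    exact mem_filter.2 ⟨mem_sdiff.2 ⟨h1, h3⟩, h2⟩
  have hT := card_sdiff_add_card_eq_card hsub
  have hbK : bd K ⊆ K := filter_subset _ _
  have e1 : euler K - euler (bd K) = ∑ σ ∈ K \ bd K, (-1 : ℤ) ^ (σ.card + 1) := by
    unfold euler
    have hd : K.filter (fun σ => σ.Nonempty) = (bd K).filter (fun σ => σ.Nonempty) ∪ (K \ bd K) := by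
      ext σ
      rw [mem_union, mem_filter, mem_filter, mem_sdiff]
      constructor
      · rintro ⟨a, b⟩
        by_cases h : σ ∈ bd K
        · exact Or.inl ⟨h, b⟩
        · exact Or.inr ⟨a, h⟩
      · rintro (⟨a, b⟩ | ⟨a, b⟩)
        · exact ⟨hbK a, b⟩
        · refine ⟨a, ?_⟩
          rw [nonempty_iff_ne_empty]
          rintro rfl
          exact b h0
    have hdisj : Disjoint ((bd K).filter (fun σ => σ.Nonempty)) (K \ bd K) := by
      rw [disjoint_left]
      intro σ h1 h2
      exact (mem_sdiff.1 h2).2 (mem_filter.1 h1).1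
    rw [hd, sum_union hdisj]
    ring
  have e2 : ∑ σ ∈ K \ bd K, (-1 : ℤ) ^ (σ.card + 1) =
      ∑ j ∈ Icc 1 5, (((K \ bd K).filter fun σ => σ.card = j).card : ℤ) * (-1) ^ (j + 1) := by
    rw [← sum_fiberwise_of_maps_to (s := K \ bd K) (t := Icc 1 5) (g := fun σ => σ.card)]
    · refine sum_congr rfl fun j _ => ?_
      rw [sum_congr rfl (g := fun _ => (-1 : ℤ) ^ (j + 1))]
      · rw [sum_const, nsmul_eq_mul]
      · intro σ hσ
        rw [(mem_filter.1 hσ).2]
    · intro σ hσ
      rw [mem_Icc]
      obtain ⟨h1, h2⟩ := mem_sdiff.1 hσ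
      refine ⟨?_, hcard σ h1⟩
      rw [Nat.one_le_iff_ne_zero, Ne, card_eq_zero]
      rintro rfl
      exact h2 h0
  have e3 : ((K \ bd K).filter fun σ => σ.card = 5) = K.filter fun σ => σ.card = 5 := by
    ext σ
    rw [mem_filter, mem_filter, mem_sdiff]
    constructor
    · rintro ⟨⟨a, _⟩, b⟩
      exact ⟨a, b⟩
    · rintro ⟨a, b⟩
      refine ⟨⟨a, ?_⟩, b⟩
      intro h
      obtain ⟨h1, R, h2, h3, h4, h5⟩ := mem_filter.1 h
      have := card_le_card h4
      omega
  rw [e1, e2] at hchi
  have hI : (Icc 1 5 : Finset ℕ) = {1, 2, 3, 4, 5} := by decide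
  rw [hI, sum_insert (by decide), sum_insert (by decide), sum_insert (by decide),
    sum_insert (by decide), sum_singleton, e3] at hchi
  have h4 := hG.2.1
  norm_num at hchi
  omega

theorem t_SUR (hT : S_TRV) : S_SUR := by
  intro V _ K Rs hK hLC hne hE hchi hG r hr
  set E := (K \ bd K).filter fun σ => σ.card = 2 with hEdef
  set T := (K \ bd K).filter (fun σ => σ.card = 3) \ Rs with hTdef
  set N := (K \ bd K).filter fun σ => σ.card = 1 with hNdef
  have h1 : Module.finrank (ZMod 2) (LinearMap.ker (dl E T)) ≤ N.card := by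
    calc Module.finrank (ZMod 2) (LinearMap.ker (dl E T))
        ≤ Module.finrank (ZMod 2) (LinearMap.range (d0 N E)) :=
          Submodule.finrank_mono (ker_le hT K Rs hK hLC hne hE hG)
      _ ≤ Module.finrank (ZMod 2) ({x // x ∈ N} → ZMod 2) := LinearMap.finrank_range_le _
      _ = N.card := by rw [Module.finrank_fintype_fun_eq_card, Fintype.card_coe]
  have h2 := LinearMap.finrank_range_add_finrank_ker (dl E T)
  rw [Module.finrank_fintype_fun_eq_card, Fintype.card_coe] at h2
  have h3 := count K Rs hK hLC hne hchi hG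
  rw [← hEdef, ← hTdef, ← hNdef] at h3
  have h4 : LinearMap.range (dl E T) = ⊤ := by
    apply Submodule.eq_top_of_finrank_eq
    apply le_antisymm (Submodule.finrank_le _)
    rw [Module.finrank_fintype_fun_eq_card, Fintype.card_coe]
    omega
  have h5 : (Pi.single ⟨r, hr⟩ 1 : {x // x ∈ T} → ZMod 2) ∈ LinearMap.range (dl E T) := by
    rw [h4]
    trivial
  obtain ⟨y, hy⟩ := h5
  refine ⟨fun e => ex E e y, ?_, ?_⟩
  · intro e he
    apply ex_nmem
    intro h
    exact he (mem_filter.1 h).1
  · intro A hA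
    have h6 := congrFun hy ⟨A, hA⟩
    rw [dl_apply] at h6
    rw [h6]
    by_cases hAr : A = r
    · subst hAr
      rw [if_pos rfl, Pi.single_eq_same]
    · rw [if_neg hAr, Pi.single_eq_of_ne]
      intro h
      exact hAr (congrArg Subtype.val h)

end Pool.Agent.L0h13.LC
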